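import Mathlib
import Pool.Agent.Results.MP_c59173_co.NoBox

/-!
# The box inequality for at most three sets, in every group
-/

set_option autoImplicit false

open scoped Pointwise

namespace Pool.Agent.J6H51.Box

open Pool.Agent.Results.MP_c59173_co.NoBox Finset

/-- There are positive reals `lam i` with product `|S|` and `∏_{i ∈ A} lam i ≤ N_A` for all `A`. -/
def HasBox {G : Type*} [Group G] [DecidableEq G] {n : ℕ} (S : Fin n → Finset G) : Prop :=
  ∃ lam : Fin n → ℝ, (∀ i, 0 < lam i) ∧ ∏ i, lam i = ((prodSet S).card : ℝ) ∧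
    ∀ A : Finset (Fin n), ∏ i ∈ A, lam i ≤ (maxCard S A : ℝ)

section ruzsa

variable {G : Type*} [Group G] [DecidableEq G]

/-- Ruzsa's inequality for three sets in an arbitrary group. -/
theorem triple (A B C : Finset G) (m : ℕ) (hm : ∀ b ∈ B, (A * {b} * C).card ≤ m) :
    (A * B * C).card ^ 2 ≤ (A * B).card * (B * C).card * m := by
  classical
  -- an injection of `B` into `ℕ`
  obtain ⟨e, he⟩ : ∃ e : G → ℕ, Set.InjOn e (B : Set G) := by
    exact Set.countable_iff_exists_injOn.mp B.countable_toSet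
  have hrep : ∀ s ∈ A * B * C, ∃ b ∈ B, ∃ a ∈ A, ∃ c ∈ C, a * b * c = s := by
    intro s hs
    rw [Finset.mem_mul] at hs
    obtain ⟨ab, hab, c, hc, rfl⟩ := hs
    rw [Finset.mem_mul] at hab
    obtain ⟨a, ha, b, hb, rfl⟩ := hab
    exact ⟨b, hb, a, ha, c, hc, rfl⟩
  -- the minimal `b`
  have hmin : ∀ s ∈ A * B * C, ∃ b ∈ B, (∃ a ∈ A, ∃ c ∈ C, a * b * c = s) ∧
      ∀ b' ∈ B, (∃ a ∈ A, ∃ c ∈ C, a * b' * c = s) → e b ≤ e b' := by
    intro s hs
    obtain ⟨b, hb, h⟩ := hrep s hs
    have hne : (B.filter (fun b => ∃ a ∈ A, ∃ c ∈ C, a * b * c = s)).Nonempty :=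
      ⟨b, Finset.mem_filter.mpr ⟨hb, h⟩⟩
    obtain ⟨b0, hb0, hb1⟩ := Finset.exists_min_image _ e hne
    rw [Finset.mem_filter] at hb0
    exact ⟨b0, hb0.1, hb0.2, fun b' hb' h' => hb1 b' (Finset.mem_filter.mpr ⟨hb', h'⟩)⟩
  choose! β hβ hβ1 hβ2 using hmin
  choose! α hα γ hγ hαγ using hβ1
  -- the parts
  set Sb : G → Finset G := fun b => (A * B * C).filter (fun s => β s = b) with hSb
  set Ab : G → Finset G := fun b => (Sb b).image α with hAb
  set Cb : G → Finset G := fun b => (Sb b).image γ with hCb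
  have hsum : (A * B * C).card = ∑ b ∈ B, (Sb b).card :=
    Finset.card_eq_sum_card_fiberwise (fun s hs => hβ s hs)
  have h1 : ∀ b ∈ B, (Sb b).card ≤ m := by
    intro b hb
    refine le_trans (Finset.card_le_card ?_) (hm b hb)
    intro s hs
    rw [hSb, Finset.mem_filter] at hs
    obtain ⟨hs, rfl⟩ := hs
    have h := Finset.mul_mem_mul (Finset.mul_mem_mul (hα s hs)
      (Finset.mem_singleton_self (β s))) (hγ s hs)
    rwa [hαγ s hs] at h
  have h2 : ∀ b ∈ B, (Sb b).card ≤ (Ab b).card * (Cb b).card := by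
    intro b hb
    rw [← Finset.card_product]
    refine Finset.card_le_card_of_injOn (fun s => (α s, γ s)) ?_ ?_
    · intro s hs
      simp only [Finset.coe_product, Set.mem_prod, Finset.mem_coe]
      exact ⟨Finset.mem_image_of_mem _ hs, Finset.mem_image_of_mem _ hs⟩
    · intro s hs t ht hst
      simp only [Prod.mk.injEq] at hst
      have hs' := Finset.mem_filter.mp hs
      have ht' := Finset.mem_filter.mp ht
      rw [← hαγ s hs'.1, ← hαγ t ht'.1, hst.1, hst.2, hs'.2, ht'.2]
  have h3 : ∑ b ∈ B, (Ab b).card ≤ (A * B).card := by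
    rw [← Finset.card_sigma]
    refine Finset.card_le_card_of_injOn (fun p => p.2 * p.1) ?_ ?_
    · intro p hp
      have hp' := Finset.mem_sigma.mp hp
      obtain ⟨s, hs, hs'⟩ := Finset.mem_image.mp hp'.2
      have hs1 := Finset.mem_filter.mp hs
      exact Finset.mul_mem_mul (hs' ▸ hα s hs1.1) hp'.1
    · rintro ⟨b, a⟩ hp ⟨b', a'⟩ hp' heq
      simp only at heq
      have hq := Finset.mem_sigma.mp hp
      have hq' := Finset.mem_sigma.mp hp'
      obtain ⟨s, hs, hs'⟩ := Finset.mem_image.mp hq.2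
      obtain ⟨t, ht, ht'⟩ := Finset.mem_image.mp hq'.2
      have hs1 := Finset.mem_filter.mp hs
      have ht1 := Finset.mem_filter.mp ht
      simp only at hs' ht' hs1 ht1
      have e1 : e b ≤ e b' := by
        have := hβ2 s hs1.1 b' hq'.1 ⟨a', ht' ▸ hα t ht1.1, γ s, hγ s hs1.1, by
          rw [← heq, ← hs']
          have := hαγ s hs1.1
          rw [hs1.2] at this
          exact this⟩
        rwa [hs1.2] at this
      have e2 : e b' ≤ e b := by
        have := hβ2 t ht1.1 b hq.1 ⟨a, hs' ▸ hα s hs1.1, γ t, hγ t ht1.1, by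
          rw [heq, ← ht']
          have := hαγ t ht1.1
          rw [ht1.2] at this
          exact this⟩
        rwa [ht1.2] at this
      have hb : b = b' := he hq.1 hq'.1 (le_antisymm e1 e2)
      subst hb
      have : a = a' := mul_right_cancel heq
      subst this
      rfl
  have h4 : ∑ b ∈ B, (Cb b).card ≤ (B * C).card := by
    rw [← Finset.card_sigma]
    refine Finset.card_le_card_of_injOn (fun p => p.1 * p.2) ?_ ?_
    · intro p hp
      have hp' := Finset.mem_sigma.mp hp
      obtain ⟨s, hs, hs'⟩ := Finset.mem_image.mp hp'.2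
      have hs1 := Finset.mem_filter.mp hs
      exact Finset.mul_mem_mul hp'.1 (hs' ▸ hγ s hs1.1)
    · rintro ⟨b, a⟩ hp ⟨b', a'⟩ hp' heq
      simp only at heq
      have hq := Finset.mem_sigma.mp hp
      have hq' := Finset.mem_sigma.mp hp'
      obtain ⟨s, hs, hs'⟩ := Finset.mem_image.mp hq.2
      obtain ⟨t, ht, ht'⟩ := Finset.mem_image.mp hq'.2
      have hs1 := Finset.mem_filter.mp hs
      have ht1 := Finset.mem_filter.mp ht
      simp only at hs' ht' hs1 ht1
      have e1 : e b ≤ e b' := by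
        have := hβ2 s hs1.1 b' hq'.1 ⟨α s, hα s hs1.1, a', ht' ▸ hγ t ht1.1, by
          rw [mul_assoc, ← heq, ← hs', ← mul_assoc]
          have := hαγ s hs1.1
          rw [hs1.2] at this
          exact this⟩
        rwa [hs1.2] at this
      have e2 : e b' ≤ e b := by
        have := hβ2 t ht1.1 b hq.1 ⟨α t, hα t ht1.1, a, hs' ▸ hγ s hs1.1, by
          rw [mul_assoc, heq, ← ht', ← mul_assoc]
          have := hαγ t ht1.1
          rw [ht1.2] at this
          exact this⟩
        rwa [ht1.2] at this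
      have hb : b = b' := he hq.1 hq'.1 (le_antisymm e1 e2)
      subst hb
      have : a = a' := mul_left_cancel heq
      subst this
      rfl
  -- Cauchy–Schwarz
  have h5 : ((A * B * C).card : ℝ) ≤
      ∑ b ∈ B, Real.sqrt m * (Real.sqrt (Ab b).card * Real.sqrt (Cb b).card) := by
    rw [hsum]
    push_cast
    refine Finset.sum_le_sum (fun b hb => ?_)
    rw [← Real.sqrt_mul (Nat.cast_nonneg _), ← Real.sqrt_mul (Nat.cast_nonneg _)]
    refine Real.le_sqrt_of_sq_le ?_
    have q1 : ((Sb b).card : ℝ) ≤ m := by exact_mod_cast h1 b hb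
    have q2 : ((Sb b).card : ℝ) ≤ (Ab b).card * (Cb b).card := by exact_mod_cast h2 b hb
    rw [pow_two]
    exact mul_le_mul q1 q2 (Nat.cast_nonneg _) (Nat.cast_nonneg _)
  have h6 : (∑ b ∈ B, Real.sqrt (Ab b).card * Real.sqrt (Cb b).card) ^ 2 ≤
      (∑ b ∈ B, ((Ab b).card : ℝ)) * ∑ b ∈ B, ((Cb b).card : ℝ) := by
    have := Finset.sum_mul_sq_le_sq_mul_sq B (fun b => Real.sqrt (Ab b).card)
      (fun b => Real.sqrt (Cb b).card)
    simpa [Real.sq_sqrt] using this
  have h7 : ((A * B * C).card : ℝ) ^ 2 ≤ (A * B).card * (B * C).card * m := by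
    have p1 : (0 : ℝ) ≤ ((A * B * C).card : ℝ) := Nat.cast_nonneg _
    calc ((A * B * C).card : ℝ) ^ 2 ≤
        (∑ b ∈ B, Real.sqrt m * (Real.sqrt (Ab b).card * Real.sqrt (Cb b).card)) ^ 2 :=
          pow_le_pow_left₀ p1 h5 2
      _ = m * (∑ b ∈ B, Real.sqrt (Ab b).card * Real.sqrt (Cb b).card) ^ 2 := by
          rw [← Finset.mul_sum, mul_pow, Real.sq_sqrt (Nat.cast_nonneg _)]
      _ ≤ m * ((∑ b ∈ B, ((Ab b).card : ℝ)) * ∑ b ∈ B, ((Cb b).card : ℝ)) :=
          mul_le_mul_of_nonneg_left h6 (Nat.cast_nonneg _)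
      _ ≤ m * (((A * B).card : ℝ) * (B * C).card) := by
          refine mul_le_mul_of_nonneg_left ?_ (Nat.cast_nonneg _)
          refine mul_le_mul ?_ ?_ (Finset.sum_nonneg fun _ _ => Nat.cast_nonneg _)
            (Nat.cast_nonneg _)
          · exact_mod_cast h3
          · exact_mod_cast h4
      _ = (A * B).card * (B * C).card * m := by ring
  exact_mod_cast h7

end ruzsa

/-- interpolation between a lower and an upper bound with a prescribed product -/
lemma interp {ι : Type*} [Fintype ι] (L U : ι → ℝ) (P : ℝ)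
    (hLU : ∀ i, L i ≤ U i) (h1 : ∏ i, L i ≤ P) (h2 : P ≤ ∏ i, U i) :
    ∃ lam : ι → ℝ, (∀ i, L i ≤ lam i ∧ lam i ≤ U i) ∧ ∏ i, lam i = P := by
  have hc : ContinuousOn (fun t : ℝ => ∏ i, ((1 - t) * L i + t * U i)) (Set.Icc 0 1) := by
    fun_prop
  have hP : P ∈ Set.Icc ((fun t : ℝ => ∏ i, ((1 - t) * L i + t * U i)) 0)
      ((fun t : ℝ => ∏ i, ((1 - t) * L i + t * U i)) 1) := by
    constructor
    · simpa using h1
    · simpa using h2
  obtain ⟨t, ht, htP⟩ := intermediate_value_Icc zero_le_one hc hP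
  refine ⟨fun i => (1 - t) * L i + t * U i, fun i => ?_, htP⟩
  have h0 := ht.1
  have h3 := ht.2
  have h4 := hLU i
  constructor <;> nlinarith

end Pool.Agent.J6H51.Box
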