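import Mathlib
import Pool.Agent.J6H51.Box.Three

/-!
# The box statement holds in every group for at most three sets
-/

set_option autoImplicit false

open scoped Pointwise

namespace Pool.Agent.J6H51.Box

open Pool.Agent.Results.MP_c59173_co.NoBox Finset

variable {G : Type*} [Group G] [DecidableEq G]

/-- the modified family -/
lemma le_maxCard {n : ℕ} (S : Fin n → Finset G) (A : Finset (Fin n)) (x : Fin n → G)
    (hx : ∀ i, x i ∈ S i) :
    (prodSet fun i => if i ∈ A then S i else {x i}).card ≤ maxCard S A := by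
  unfold maxCard
  exact Finset.le_sup (f := fun x => (prodSet fun i => if i ∈ A then S i else {x i}).card)
    (Fintype.mem_piFinset.mpr hx)

lemma prodSet_nonempty {n : ℕ} (S : Fin n → Finset G) (h : ∀ i, (S i).Nonempty) :
    (prodSet S).Nonempty := by
  choose x hx using h
  refine ⟨(List.ofFn x).prod, ?_⟩
  unfold prodSet
  have : ∀ (n : ℕ) (S : Fin n → Finset G) (x : Fin n → G), (∀ i, x i ∈ S i) →
      (List.ofFn x).prod ∈ (List.ofFn S).prod := by
    intro n
    induction n with
    | zero => intro S x _; simp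
    | succ n ih =>
      intro S x hx
      rw [List.ofFn_succ, List.ofFn_succ, List.prod_cons, List.prod_cons]
      exact Finset.mul_mem_mul (hx 0) (ih _ _ fun i => hx i.succ)
  exact this n S x hx

lemma maxCard_univ {n : ℕ} (S : Fin n → Finset G) (h : ∀ i, (S i).Nonempty) :
    (prodSet S).card ≤ maxCard S Finset.univ := by
  choose x hx using h
  have := le_maxCard S Finset.univ x hx
  simpa using this

lemma maxCard_pos {n : ℕ} (S : Fin n → Finset G) (h : ∀ i, (S i).Nonempty)
    (A : Finset (Fin n)) : 1 ≤ maxCard S A := by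
  have h' := h
  choose x hx using h
  refine le_trans ?_ (le_maxCard S A x hx)
  rw [Nat.one_le_iff_ne_zero, Finset.card_ne_zero]
  refine prodSet_nonempty _ fun i => ?_
  split_ifs
  · exact h' i
  · exact Finset.singleton_nonempty _

/-- `n = 0` -/
lemma box_zero (S : Fin 0 → Finset G) : HasBox S := by
  refine ⟨fun _ => 1, fun _ => one_pos, ?_, fun A => ?_⟩
  · simp [prodSet]
  · have hA : A = ∅ := Subsingleton.elim _ _
    have := maxCard_pos S (fun i => i.elim0) A
    rw [hA] at this ⊢
    simpa using (by exact_mod_cast this : (1 : ℝ) ≤ (maxCard S ∅ : ℕ))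

lemma box_one (S : Fin 1 → Finset G) (h : ∀ i, (S i).Nonempty) : HasBox S := by
  have hpos : 0 < ((prodSet S).card : ℝ) := by
    exact_mod_cast (prodSet_nonempty S h).card_pos
  refine ⟨fun _ => (prodSet S).card, fun _ => hpos, by simp, fun A => ?_⟩
  have hA : A = ∅ ∨ A = Finset.univ := by
    revert A; decide
  rcases hA with rfl | rfl
  · simpa using (by exact_mod_cast maxCard_pos S h ∅ : (1 : ℝ) ≤ (maxCard S ∅ : ℕ))
  · simpa using (by exact_mod_cast maxCard_univ S h :
      ((prodSet S).card : ℝ) ≤ (maxCard S Finset.univ : ℕ))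

lemma prodSet_two (S : Fin 2 → Finset G) : prodSet S = S 0 * S 1 := by
  simp [prodSet, List.ofFn_succ]

lemma prodSet_three (S : Fin 3 → Finset G) : prodSet S = S 0 * S 1 * S 2 := by
  simp [prodSet, List.ofFn_succ, mul_assoc]

lemma box_two (S : Fin 2 → Finset G) (h : ∀ i, (S i).Nonempty) : HasBox S := by
  set P : ℝ := ((prodSet S).card : ℝ) with hP
  have hPpos : 0 < P := by
    rw [hP]; exact_mod_cast (prodSet_nonempty S h).card_pos
  have h' := h
  choose x hx using h'
  have hn : ∀ i, (0 : ℝ) < (S i).card := fun i => by exact_mod_cast (h i).card_pos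
  have hN0 : (S 0).card ≤ maxCard S {0} := by
    refine le_trans (le_of_eq ?_) (le_maxCard S {0} x hx)
    rw [prodSet_two]
    simp [Finset.card_mul_singleton]
  have hN1 : (S 1).card ≤ maxCard S {1} := by
    refine le_trans (le_of_eq ?_) (le_maxCard S {1} x hx)
    rw [prodSet_two]
    simp [Finset.card_singleton_mul]
  have hle : P ≤ (S 0).card * (S 1).card := by
    rw [hP, prodSet_two]
    exact_mod_cast Finset.card_mul_le
  have hge : (S 0).card ≤ P := by
    rw [hP, prodSet_two]
    have : (S 0).card ≤ (S 0 * S 1).card := Finset.card_le_card_mul_right (h 1)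
    exact_mod_cast this
  refine ⟨![(S 0).card, P / (S 0).card], ?_, ?_, ?_⟩
  · intro i
    fin_cases i
    · exact hn 0
    · exact div_pos hPpos (hn 0)
  · rw [Fin.prod_univ_two]
    simp only [Matrix.cons_val_zero, Matrix.cons_val_one]
    have := hn 0
    rw [← hP]
    field_simp
  · intro A
    have hA : A = ∅ ∨ A = {0} ∨ A = {1} ∨ A = Finset.univ := by
      revert A; decide
    rcases hA with rfl | rfl | rfl | rfl
    · simpa using (by exact_mod_cast maxCard_pos S h ∅ : (1 : ℝ) ≤ (maxCard S ∅ : ℕ))
    · simpa using (by exact_mod_cast hN0 : ((S 0).card : ℝ) ≤ (maxCard S {0} : ℕ))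
    · have h1 : P / (S 0).card ≤ (S 1).card := by
        rw [div_le_iff₀ (hn 0)]; linarith
      have h2 : ((S 1).card : ℝ) ≤ (maxCard S {1} : ℕ) := by exact_mod_cast hN1
      simpa using h1.trans h2
    · have h2 : P ≤ (maxCard S Finset.univ : ℕ) := by
        rw [hP]; exact_mod_cast maxCard_univ S h
      rw [Fin.prod_univ_two]
      simp only [Matrix.cons_val_zero, Matrix.cons_val_one]
      have := hn 0
      have e : ((S 0).card : ℝ) * (P / (S 0).card) = P := by field_simp
      rw [e]
      exact h2

lemma box_three (S : Fin 3 → Finset G) (h : ∀ i, (S i).Nonempty) : HasBox S := by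
  set P : ℝ := ((prodSet S).card : ℝ) with hP
  have hPpos : 0 < P := by
    rw [hP]; exact_mod_cast (prodSet_nonempty S h).card_pos
  have h' := h
  choose x hx using h'
  have hpn : (prodSet S).card = (S 0 * S 1 * S 2).card := by rw [prodSet_three]
  -- the single sets
  have hN0 : (S 0).card ≤ maxCard S {0} := by
    refine le_trans (le_of_eq ?_) (le_maxCard S {0} x hx)
    rw [prodSet_three]
    simp [Finset.card_mul_singleton]
  have hN1 : (S 1).card ≤ maxCard S {1} := by
    refine le_trans (le_of_eq ?_) (le_maxCard S {1} x hx)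
    rw [prodSet_three]
    simp [Finset.card_mul_singleton, Finset.card_singleton_mul]
  have hN2 : (S 2).card ≤ maxCard S {2} := by
    refine le_trans (le_of_eq ?_) (le_maxCard S {2} x hx)
    rw [prodSet_three]
    simp [Finset.card_singleton_mul]
  -- the pairs
  have hN01 : (S 0 * S 1).card ≤ maxCard S {0, 1} := by
    refine le_trans (le_of_eq ?_) (le_maxCard S {0, 1} x hx)
    rw [prodSet_three]
    simp [Finset.card_mul_singleton]
  have hN12 : (S 1 * S 2).card ≤ maxCard S {1, 2} := by
    refine le_trans (le_of_eq ?_) (le_maxCard S {1, 2} x hx)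
    rw [prodSet_three]
    simp [mul_assoc, Finset.card_singleton_mul]
  have hN02 : ∀ b ∈ S 1, (S 0 * {b} * S 2).card ≤ maxCard S {0, 2} := by
    intro b hb
    have hx' : ∀ i, (Function.update x 1 b) i ∈ S i := by
      intro i
      by_cases hi : i = 1
      · subst hi; simpa using hb
      · rw [Function.update_of_ne hi]; exact hx i
    refine le_trans (le_of_eq ?_) (le_maxCard S {0, 2} _ hx')
    rw [prodSet_three]
    simp
  have hR := triple (S 0) (S 1) (S 2) _ hN02
  -- real versions
  have hn : ∀ i, (0 : ℝ) < (S i).card := fun i => by exact_mod_cast (h i).card_pos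
  set p01 : ℝ := ((S 0 * S 1).card : ℝ) with hp01
  set p12 : ℝ := ((S 1 * S 2).card : ℝ) with hp12
  set N02 : ℝ := (maxCard S {0, 2} : ℝ) with hN02r
  have p01pos : 0 < p01 := by
    rw [hp01]; exact_mod_cast ((h 0).mul (h 1)).card_pos
  have p12pos : 0 < p12 := by
    rw [hp12]; exact_mod_cast ((h 1).mul (h 2)).card_pos
  have N02pos : 0 < N02 := by
    rw [hN02r]; exact_mod_cast maxCard_pos S h {0, 2}
  have i2 : P ≤ p01 * (S 2).card := by
    rw [hP, hpn, hp01]; exact_mod_cast Finset.card_mul_le
  have i0 : P ≤ (S 0).card * p12 := by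
    rw [hP, hpn, hp12, mul_assoc]; exact_mod_cast Finset.card_mul_le
  have i1 : P ≤ (S 1).card * N02 := by
    have hsub : S 0 * S 1 * S 2 ⊆ (S 1).biUnion (fun b => S 0 * {b} * S 2) := by
      intro s hs
      rw [Finset.mem_mul] at hs
      obtain ⟨ab, hab, c, hc, rfl⟩ := hs
      rw [Finset.mem_mul] at hab
      obtain ⟨a, ha, b, hb, rfl⟩ := hab
      exact Finset.mem_biUnion.mpr ⟨b, hb, Finset.mul_mem_mul (Finset.mul_mem_mul ha
        (Finset.mem_singleton_self b)) hc⟩
    have h1 : (S 0 * S 1 * S 2).card ≤ (S 1).card * maxCard S {0, 2} :=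
      (Finset.card_le_card hsub).trans
        (Finset.card_biUnion_le_card_mul _ _ _ hN02)
    rw [hP, hpn, hN02r]; exact_mod_cast h1
  have iR : P ^ 2 ≤ p01 * p12 * N02 := by
    rw [hP, hpn, hp01, hp12, hN02r]; exact_mod_cast hR
  -- the choice
  obtain ⟨lam, hlam, hprod⟩ := interp (ι := Fin 3) ![P / p12, P / N02, P / p01]
    ![((S 0).card : ℝ), (S 1).card, (S 2).card] P (by
      intro i
      fin_cases i
      · simp only [Fin.zero_eta, Matrix.cons_val_zero]; rw [div_le_iff₀ p12pos]; exact i0
      · simp only [Fin.mk_one, Matrix.cons_val_one, Matrix.cons_val_zero]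
        rw [div_le_iff₀ N02pos]; exact i1
      · simp only [Fin.reduceFinMk, Matrix.cons_val]
        rw [div_le_iff₀ p01pos]; linarith) (by
      rw [Fin.prod_univ_three]
      simp only [Matrix.cons_val]
      rw [div_mul_div_comm, div_mul_div_comm, div_le_iff₀ (by positivity)]
      have : P * P * P = P * P ^ 2 := by ring
      rw [this]
      refine mul_le_mul_of_nonneg_left ?_ hPpos.le
      linarith [iR]) (by
      rw [Fin.prod_univ_three]
      simp only [Matrix.cons_val]
      have h1 : p01 ≤ (S 0).card * (S 1).card := by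
        rw [hp01]; exact_mod_cast Finset.card_mul_le
      exact i2.trans (mul_le_mul_of_nonneg_right h1 (hn 2).le))
  have l0 := hlam 0
  have l1 := hlam 1
  have l2 := hlam 2
  simp only [Matrix.cons_val] at l0 l1 l2
  have lam0 : 0 < lam 0 := lt_of_lt_of_le (div_pos hPpos p12pos) l0.1
  have lam1 : 0 < lam 1 := lt_of_lt_of_le (div_pos hPpos N02pos) l1.1
  have lam2 : 0 < lam 2 := lt_of_lt_of_le (div_pos hPpos p01pos) l2.1
  rw [Fin.prod_univ_three] at hprod
  have q12 : lam 1 * lam 2 ≤ p12 := by
    have := l0.1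
    rw [div_le_iff₀ p12pos] at this
    have h2 : lam 0 * (lam 1 * lam 2) ≤ lam 0 * p12 := by nlinarith
    exact le_of_mul_le_mul_left h2 lam0
  have q02 : lam 0 * lam 2 ≤ N02 := by
    have := l1.1
    rw [div_le_iff₀ N02pos] at this
    have h2 : lam 1 * (lam 0 * lam 2) ≤ lam 1 * N02 := by nlinarith
    exact le_of_mul_le_mul_left h2 lam1
  have q01 : lam 0 * lam 1 ≤ p01 := by
    have := l2.1
    rw [div_le_iff₀ p01pos] at this
    have h2 : lam 2 * (lam 0 * lam 1) ≤ lam 2 * p01 := by nlinarith
    exact le_of_mul_le_mul_left h2 lam2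
  refine ⟨lam, ?_, ?_, ?_⟩
  · intro i
    fin_cases i
    · exact lam0
    · exact lam1
    · exact lam2
  · rw [Fin.prod_univ_three]; exact hprod
  · intro A
    have hA : A = ∅ ∨ A = {0} ∨ A = {1} ∨ A = {2} ∨ A = {0, 1} ∨ A = {0, 2} ∨ A = {1, 2} ∨
        A = Finset.univ := by
      revert A; decide
    rcases hA with rfl | rfl | rfl | rfl | rfl | rfl | rfl | rfl
    · simpa using (by exact_mod_cast maxCard_pos S h ∅ : (1 : ℝ) ≤ (maxCard S ∅ : ℕ))
    · rw [Finset.prod_singleton]
      exact l0.2.trans (by exact_mod_cast hN0)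
    · rw [Finset.prod_singleton]
      exact l1.2.trans (by exact_mod_cast hN1)
    · rw [Finset.prod_singleton]
      exact l2.2.trans (by exact_mod_cast hN2)
    · rw [Finset.prod_pair (by decide)]
      exact q01.trans (by rw [hp01]; exact_mod_cast hN01)
    · rw [Finset.prod_pair (by decide)]
      exact q02
    · rw [Finset.prod_pair (by decide)]
      exact q12.trans (by rw [hp12]; exact_mod_cast hN12)
    · rw [Fin.prod_univ_three, hprod, hP]
      exact_mod_cast maxCard_univ S h

/-- The box statement holds in every group for at most three sets. -/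
theorem box_le_three {n : ℕ} (hn : n ≤ 3) (S : Fin n → Finset G) (h : ∀ i, (S i).Nonempty) :
    HasBox S := by
  interval_cases n
  · exact box_zero S
  · exact box_one S h
  · exact box_two S h
  · exact box_three S h

end Pool.Agent.J6H51.Box
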