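import Mathlib
import Pool.Agent.J6H51.Box.Small

/-!
# Tensor powers of the counterexample
-/

set_option autoImplicit false

open scoped Pointwise

namespace Pool.Agent.J6H51.Box

open Pool.Agent.Results.MP_c59173_co.NoBox Finset

section padding

variable {G : Type*} [Group G] [DecidableEq G]

/-- adding trivial sets at the end -/
def pad {n : ℕ} (S : Fin n → Finset G) (m : ℕ) : Fin (n + m) → Finset G :=
  Fin.append S (fun _ => {1})

lemma prodSet_append {n m : ℕ} (S : Fin n → Finset G) (T : Fin m → Finset G) :
    prodSet (Fin.append S T) = prodSet S * prodSet T := by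
  unfold prodSet
  rw [List.ofFn_fin_append, List.prod_append]

lemma prodSet_ones (m : ℕ) : prodSet (fun _ : Fin m => ({1} : Finset G)) = {1} := by
  unfold prodSet
  rw [List.ofFn_const, List.prod_replicate, Finset.singleton_one, one_pow]

lemma prodSet_pad {n : ℕ} (S : Fin n → Finset G) (m : ℕ) : prodSet (pad S m) = prodSet S := by
  unfold pad
  rw [prodSet_append, prodSet_ones, Finset.singleton_one, mul_one]

/-- the trace of a set of indices on the first `n` indices -/
def tr {n m : ℕ} (A : Finset (Fin (n + m))) : Finset (Fin n) :=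
  Finset.univ.filter fun i => Fin.castAdd m i ∈ A

lemma maxCard_pad {n : ℕ} (S : Fin n → Finset G) (m : ℕ) (A : Finset (Fin (n + m))) :
    maxCard (pad S m) A ≤ maxCard S (tr A) := by
  unfold maxCard
  refine Finset.sup_le fun x hx => ?_
  rw [Fintype.mem_piFinset] at hx
  have hx1 : ∀ i : Fin n, x (Fin.castAdd m i) ∈ S i := fun i => by
    have := hx (Fin.castAdd m i)
    simpa [pad] using this
  have hx2 : ∀ j : Fin m, x (Fin.natAdd n j) = 1 := fun j => by
    have := hx (Fin.natAdd n j)
    simpa [pad] using this
  have he : (fun i => if i ∈ A then pad S m i else {x i}) =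
      Fin.append (fun i => if i ∈ tr A then S i else {x (Fin.castAdd m i)})
        (fun _ : Fin m => ({1} : Finset G)) := by
    funext i
    refine Fin.addCases (fun i => ?_) (fun j => ?_) i
    · rw [Fin.append_left]
      by_cases h : Fin.castAdd m i ∈ A
      · rw [if_pos h, if_pos (by simp [tr, h]), pad, Fin.append_left]
      · rw [if_neg h, if_neg (by simp [tr, h])]
    · rw [Fin.append_right]
      by_cases h : Fin.natAdd n j ∈ A
      · rw [if_pos h, pad, Fin.append_right]
      · rw [if_neg h, hx2]
  rw [he, prodSet_append, prodSet_ones]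
  have := Finset.le_sup (f := fun x : Fin n → G =>
    (prodSet fun i => if i ∈ tr A then S i else {x i}).card)
    (Fintype.mem_piFinset.mpr hx1)
  simpa using this

end padding

section power

variable {G : Type*} [Group G] [DecidableEq G]

/-- the `k`-th tensor power of a family of sets -/
def pw {n : ℕ} (S : Fin n → Finset G) (k : ℕ) : Fin n → Finset (Fin k → G) :=
  fun i => Fintype.piFinset fun _ => S i

lemma prod_piFinset {n : ℕ} (k : ℕ) (F : Fin n → Fin k → Finset G) :
    prodSet (fun i => Fintype.piFinset (F i)) =
      Fintype.piFinset fun j => prodSet fun i => F i j := by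
  unfold prodSet
  induction n with
  | zero =>
    ext y
    simp [Fintype.mem_piFinset, funext_iff]
  | succ n ih =>
    simp only [List.ofFn_succ, List.prod_cons]
    rw [ih (fun i => F i.succ), ← Fintype.piFinset_mul]

lemma card_prodSet_pw {n : ℕ} (S : Fin n → Finset G) (k : ℕ) :
    (prodSet (pw S k)).card = (prodSet S).card ^ k := by
  unfold pw
  rw [prod_piFinset k (fun i _ => S i), Fintype.card_piFinset]
  simp

lemma maxCard_pw {n : ℕ} (S : Fin n → Finset G) (k : ℕ) (A : Finset (Fin n)) :
    maxCard (pw S k) A ≤ maxCard S A ^ k := by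
  unfold maxCard
  refine Finset.sup_le fun x hx => ?_
  rw [Fintype.mem_piFinset] at hx
  have he : (fun i => if i ∈ A then pw S k i else {x i}) =
      fun i => Fintype.piFinset (fun j => if i ∈ A then S i else {x i j}) := by
    funext i
    by_cases h : i ∈ A
    · simp [h, pw]
    · simp [h]
  rw [he, prod_piFinset k (fun i j => if i ∈ A then S i else {x i j}), Fintype.card_piFinset]
  have hle : ∀ j : Fin k, (prodSet fun i => if i ∈ A then S i else {x i j}).card ≤
      (Fintype.piFinset S).sup fun x => (prodSet fun i => if i ∈ A then S i else {x i}).card := by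
    intro j
    have hxj : (fun i => x i j) ∈ Fintype.piFinset S := by
      rw [Fintype.mem_piFinset]
      intro i
      have := hx i
      rw [pw, Fintype.mem_piFinset] at this
      exact this j
    exact Finset.le_sup (f := fun x => (prodSet fun i => if i ∈ A then S i else {x i}).card) hxj
  refine (Finset.prod_le_prod' fun j _ => hle j).trans ?_
  simp

omit [Group G] [DecidableEq G] in
lemma pw_nonempty {n : ℕ} (S : Fin n → Finset G) (h : ∀ i, (S i).Nonempty) (k : ℕ) (i : Fin n) :
    (pw S k i).Nonempty := by
  unfold pw
  exact Fintype.piFinset_nonempty.mpr fun _ => h i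

end power

/-- The family: `k`-th power of the four sets in `D₄ × D₄`, followed by `m` trivial sets. -/
theorem fam (m k : ℕ) : ∃ (S : Fin (4 + m) → Finset (Fin k → GG)) (A : Finset (Fin (4 + m))),
    (∀ i, (S i).Nonempty) ∧ (prodSet S).card = 40 ^ k ∧ maxCard S A ≤ 6 ^ k ∧
      maxCard S Aᶜ ≤ 6 ^ k := by
  refine ⟨pad (pw SS k) m, ({0, 2} : Finset (Fin 4)).image (Fin.castAdd m), ?_, ?_, ?_, ?_⟩
  · intro i
    refine Fin.addCases (fun i => ?_) (fun j => ?_) i
    · rw [pad, Fin.append_left]; exact pw_nonempty SS nonempty_SS k i
    · rw [pad, Fin.append_right]; exact Finset.singleton_nonempty _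
  · rw [prodSet_pad, card_prodSet_pw, card_SS]
  · refine (maxCard_pad _ _ _).trans ?_
    have ht : tr (({0, 2} : Finset (Fin 4)).image (Fin.castAdd m)) = {0, 2} := by
      ext i
      simp [tr, Fin.castAdd_inj]
    rw [ht]
    refine (maxCard_pw _ _ _).trans ?_
    rw [max02]
  · refine (maxCard_pad _ _ _).trans ?_
    have ht : tr (({0, 2} : Finset (Fin 4)).image (Fin.castAdd m))ᶜ = {1, 3} := by
      ext i
      simp only [tr, Finset.mem_filter, Finset.mem_univ, true_and, Finset.mem_compl,
        Finset.mem_image, Finset.mem_insert, Finset.mem_singleton, Fin.castAdd_inj,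
        exists_eq_right]
      revert i
      decide
    rw [ht]
    refine (maxCard_pw _ _ _).trans ?_
    rw [max13]

end Pool.Agent.J6H51.Box
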